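import Pool.Agent.W734.TWB.Stms

/-!
TWB-JP: existence of a positive supersolution.
-/

set_option autoImplicit false

noncomputable section

namespace Pool.Agent.W563.TWB.Jp

open MeasureTheory Set Filter Metric
open Pool.Agent.W734.TWB

/-! ### closure properties of `Nice` -/

theorem nice_zero : Nice (fun _ => (0 : ℝ)) :=
  ⟨measurable_const, ⟨0, fun x => by simp⟩, by simp⟩

theorem nice_of_le {f : E3 → ℝ} (hm : Measurable f) (hb : ∃ B : ℝ, ∀ x, |f x| ≤ B)
    {F : E3 → ℝ} (hF : Integrable F) (hle : ∀ x, f x ^ 2 ≤ F x) : Nice f := by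
  refine ⟨hm, hb, hF.mono' (hm.pow_const 2).aestronglyMeasurable (ae_of_all _ fun x => ?_)⟩
  rw [Real.norm_eq_abs, abs_of_nonneg (sq_nonneg _)]
  exact hle x

theorem nice_add {f g : E3 → ℝ} (hf : Nice f) (hg : Nice g) : Nice (fun x => f x + g x) := by
  obtain ⟨B, hB⟩ := hf.bdd
  obtain ⟨C, hC⟩ := hg.bdd
  refine nice_of_le (hf.meas.add hg.meas) ⟨B + C, fun x => (abs_add_le _ _).trans
    (add_le_add (hB x) (hC x))⟩ ((hf.sq.const_mul 2).add (hg.sq.const_mul 2)) (fun x => ?_)
  simp only [Pi.add_apply]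
  nlinarith [sq_nonneg (f x - g x)]

theorem nice_bmul {f b : E3 → ℝ} (hf : Nice f) (hb : Measurable b) {C : ℝ}
    (hC : ∀ x, |b x| ≤ C) : Nice (fun x => b x * f x) := by
  obtain ⟨B, hB⟩ := hf.bdd
  have hC0 : 0 ≤ C := (abs_nonneg _).trans (hC 0)
  refine nice_of_le (hb.mul hf.meas) ⟨C * B, fun x => ?_⟩ (hf.sq.const_mul (C ^ 2)) (fun x => ?_)
  · rw [abs_mul]
    exact mul_le_mul (hC x) (hB x) (abs_nonneg _) hC0
  · rw [mul_pow]
    refine mul_le_mul_of_nonneg_right ?_ (sq_nonneg _)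
    rw [← sq_abs]
    exact pow_le_pow_left₀ (abs_nonneg _) (hC x) 2

theorem nice_mul_int {f g : E3 → ℝ} (hf : Nice f) (hg : Nice g) :
    Integrable (fun x => f x * g x) := by
  refine (hf.sq.add hg.sq).mono' (hf.meas.mul hg.meas).aestronglyMeasurable
    (ae_of_all _ fun x => ?_)
  rw [Real.norm_eq_abs, abs_le]
  simp only [Pi.add_apply]
  constructor
  · nlinarith [sq_nonneg (f x + g x), sq_nonneg (f x), sq_nonneg (g x)]
  · nlinarith [sq_nonneg (f x - g x), sq_nonneg (f x), sq_nonneg (g x)]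

theorem bmul_int {F b : E3 → ℝ} (hF : Integrable F) (hb : Measurable b) {C : ℝ}
    (hC : ∀ x, |b x| ≤ C) : Integrable (fun x => b x * F x) := by
  refine hF.bdd_mul (c := C) hb.aestronglyMeasurable (ae_of_all _ fun x => ?_)
  rw [Real.norm_eq_abs]
  exact hC x

/-! ### the source term -/

/-- the source -/
def gg (x : E3) : ℝ := (1 + ‖x‖) ^ (-2 : ℝ)

theorem gg_pos (x : E3) : 0 < gg x := Real.rpow_pos_of_pos (by positivity) _

theorem gg_nice : Nice gg := by
  have hm : Measurable gg := by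
    unfold gg
    fun_prop
  have hi : Integrable (fun x : E3 => (1 + ‖x‖) ^ (-4 : ℝ)) := by
    refine integrable_one_add_norm ?_
    rw [finrank_euclideanSpace_fin]
    norm_num
  refine nice_of_le hm ⟨1, fun x => ?_⟩ hi (fun x => le_of_eq ?_)
  · rw [abs_of_pos (gg_pos x)]
    refine Real.rpow_le_one_of_one_le_of_nonpos ?_ (by norm_num)
    linarith [norm_nonneg x]
  · have h0 : (0 : ℝ) < 1 + ‖x‖ := by positivity
    unfold gg
    rw [← Real.rpow_natCast, ← Real.rpow_mul h0.le]
    norm_num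

/-! ### Fatou -/

theorem sq_fatou {f : ℕ → E3 → ℝ} {φ : E3 → ℝ} (hf : ∀ n, Nice (f n)) (hφ : Measurable φ)
    {S : ℝ} (hS : ∀ n, ∫ x, f n x ^ 2 ≤ S)
    (hc : ∀ x, Tendsto (fun n => f n x) atTop (nhds (φ x))) :
    Integrable (fun x => φ x ^ 2) := by
  refine ⟨(hφ.pow_const 2).aestronglyMeasurable, ?_⟩
  rw [hasFiniteIntegral_iff_enorm]
  have h1 : ∀ x, ‖φ x ^ 2‖ₑ = liminf (fun n => ‖f n x ^ 2‖ₑ) atTop := by
    intro x
    exact (((hc x).pow 2).enorm.liminf_eq).symm
  have h2 : ∀ n, ∫⁻ x, ‖f n x ^ 2‖ₑ ≤ ENNReal.ofReal S := by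
    intro n
    have h3 : ∫⁻ x, ‖f n x ^ 2‖ₑ = ENNReal.ofReal (∫ x, f n x ^ 2) := by
      rw [ofReal_integral_eq_lintegral_ofReal (hf n).sq (ae_of_all _ fun x => sq_nonneg _)]
      refine lintegral_congr fun x => ?_
      rw [Real.enorm_eq_ofReal (sq_nonneg _)]
    rw [h3]
    exact ENNReal.ofReal_le_ofReal (hS n)
  calc ∫⁻ x, ‖φ x ^ 2‖ₑ = ∫⁻ x, liminf (fun n => ‖f n x ^ 2‖ₑ) atTop := lintegral_congr h1
    _ ≤ liminf (fun n => ∫⁻ x, ‖f n x ^ 2‖ₑ) atTop :=
        lintegral_liminf_le (fun n => ((hf n).meas.pow_const 2).enorm)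
    _ ≤ liminf (fun _ : ℕ => ENNReal.ofReal S) atTop :=
        liminf_le_liminf (Eventually.of_forall h2)
    _ = ENNReal.ofReal S := liminf_const _
    _ < ⊤ := ENNReal.ofReal_lt_top

/-! ### the iteration -/

/-- the iteration -/
def phi (G : (E3 → ℝ) → (E3 → ℝ)) (B : E3 → ℝ) : ℕ → E3 → ℝ
  | 0 => fun _ => 0
  | k + 1 => G (fun x => gg x + B x * phi G B k x)

section
variable {κ : ℝ} {G : (E3 → ℝ) → (E3 → ℝ)} {B : E3 → ℝ} {C : ℝ}

theorem src_nice (hB : Measurable B) (hC : ∀ x, |B x| ≤ C) {f : E3 → ℝ} (hf : Nice f) :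
    Nice (fun x => gg x + B x * f x) :=
  nice_add gg_nice (nice_bmul hf hB hC)

theorem phi_nice (hG : IsRes κ G) (hB : Measurable B) (hC : ∀ x, |B x| ≤ C) (k : ℕ) :
    Nice (phi G B k) := by
  induction k with
  | zero => exact nice_zero
  | succ k ih => exact hG.nice _ (src_nice hB hC ih)

theorem phi_mono1 (hG : IsRes κ G) (hB : Measurable B) (hC : ∀ x, |B x| ≤ C)
    (hB0 : ∀ x, 0 ≤ B x) (k : ℕ) : ∀ x, phi G B k x ≤ phi G B (k + 1) x := by
  induction k with
  | zero =>
      intro x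
      have h1 := hG.mono (fun _ => 0) (fun x => gg x + B x * phi G B 0 x) nice_zero
        (src_nice hB hC (phi_nice hG hB hC 0)) (fun x => by
          simp only [phi, mul_zero, add_zero]
          exact (gg_pos x).le) x
      rw [hG.zero x] at h1
      exact h1
  | succ k ih =>
      intro x
      exact hG.mono (fun x => gg x + B x * phi G B k x) (fun x => gg x + B x * phi G B (k + 1) x)
        (src_nice hB hC (phi_nice hG hB hC k)) (src_nice hB hC (phi_nice hG hB hC (k + 1)))
        (fun x => add_le_add le_rfl (mul_le_mul_of_nonneg_left (ih x) (hB0 x))) x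

theorem phi_mono (hG : IsRes κ G) (hB : Measurable B) (hC : ∀ x, |B x| ≤ C)
    (hB0 : ∀ x, 0 ≤ B x) (x : E3) : Monotone (fun k => phi G B k x) :=
  monotone_nat_of_le_succ (fun k => phi_mono1 hG hB hC hB0 k x)

theorem phi_nonneg (hG : IsRes κ G) (hB : Measurable B) (hC : ∀ x, |B x| ≤ C)
    (hB0 : ∀ x, 0 ≤ B x) (k : ℕ) (x : E3) : 0 ≤ phi G B k x :=
  phi_mono hG hB hC hB0 x (Nat.zero_le k)

/-- uniform `L²` bound -/
theorem phi_l2 (hF : S_FORM) (hG : IsRes κ G) (hB : Measurable B) (hC : ∀ x, |B x| ≤ C)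
    (hB0 : ∀ x, 0 ≤ B x) {Q : E3 → ℝ} (hQm : Measurable Q) (hQ0 : ∀ x, 0 ≤ Q x)
    {M : ℝ} (hM : ∀ x, Q x ≤ M) {lam lam' : ℝ} (hl : lam' < lam) (hfl : FormLow Q lam)
    (hBQ : ∀ x, B x = κ + lam' - Q x) (k : ℕ) :
    ∫ x, phi G B k x ^ 2 ≤ (∫ x, gg x ^ 2) / (lam - lam') ^ 2 := by
  have hd : 0 < lam - lam' := sub_pos.2 hl
  cases k with
  | zero =>
      have h1 : ∫ x, phi G B 0 x ^ 2 = 0 := by simp [phi]
      rw [h1]
      have h2 : 0 ≤ ∫ x, gg x ^ 2 := integral_nonneg fun x => sq_nonneg _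
      positivity
  | succ k =>
      set v : E3 → ℝ := phi G B (k + 1) with hv
      have hvn : Nice v := phi_nice hG hB hC (k + 1)
      have hv0 : ∀ x, 0 ≤ v x := phi_nonneg hG hB hC hB0 (k + 1)
      have hsn := src_nice hB hC (phi_nice hG hB hC k)
      have hvG : v = G (fun x => gg x + B x * phi G B k x) := rfl
      have hint : Integrable (fun x => dot3 v v x) := by
        rw [hvG]; exact hG.gsq _ hsn
      have hen : ∫ x, (dot3 v v x + κ * v x ^ 2)
          = ∫ x, (gg x + B x * phi G B k x) * v x := by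
        rw [hvG]; exact hG.energy _ hsn
      have hQa : ∀ x, |Q x| ≤ M := fun x => by rw [abs_of_nonneg (hQ0 x)]; exact hM x
      have iv : Integrable (fun x => v x ^ 2) := hvn.sq
      have iQ : Integrable (fun x => Q x * v x ^ 2) := bmul_int iv hQm hQa
      have iB : Integrable (fun x => B x * v x ^ 2) := bmul_int iv hB hC
      have ig : Integrable (fun x => gg x * v x) := nice_mul_int gg_nice hvn
      have hle : ∫ x, (gg x + B x * phi G B k x) * v x ≤ ∫ x, (gg x * v x + B x * v x ^ 2) := by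
        refine integral_mono (nice_mul_int hsn hvn) (ig.add iB) (fun x => ?_)
        have h1 : phi G B k x ≤ v x := phi_mono1 hG hB hC hB0 k x
        have h2 : B x * phi G B k x ≤ B x * v x := mul_le_mul_of_nonneg_left h1 (hB0 x)
        have h3 : (B x * phi G B k x) * v x ≤ (B x * v x) * v x :=
          mul_le_mul_of_nonneg_right h2 (hv0 x)
        simp only
        nlinarith
      have e1 : ∫ x, (dot3 v v x + κ * v x ^ 2) = (∫ x, dot3 v v x) + κ * ∫ x, v x ^ 2 := by
        rw [integral_add hint (iv.const_mul κ), integral_const_mul]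
      have e2 : ∫ x, (gg x * v x + B x * v x ^ 2)
          = (∫ x, gg x * v x) + ((κ + lam') * (∫ x, v x ^ 2) - ∫ x, Q x * v x ^ 2) := by
        rw [integral_add ig iB]
        congr 1
        rw [← integral_const_mul, ← integral_sub (iv.const_mul _) iQ]
        refine integral_congr_ae (ae_of_all _ fun x => ?_)
        simp only [hBQ x]
        ring
      have e3 : ∫ x, (dot3 v v x + Q x * v x ^ 2) = (∫ x, dot3 v v x) + ∫ x, Q x * v x ^ 2 :=
        integral_add hint iQ
      have hform := hF Q hQm hQ0 ⟨M, hM⟩ lam hfl v (by rw [hvG]; exact hG.diff _ hsn) hvn hint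
      have hgv : ∫ x, gg x * v x ≤ 1 / (2 * (lam - lam')) * (∫ x, gg x ^ 2)
          + (lam - lam') / 2 * ∫ x, v x ^ 2 := by
        rw [← integral_const_mul, ← integral_const_mul,
          ← integral_add (gg_nice.sq.const_mul _) (iv.const_mul _)]
        refine integral_mono ig ((gg_nice.sq.const_mul _).add (iv.const_mul _)) (fun x => ?_)
        simp only
        have h5 : 1 / (2 * (lam - lam')) * gg x ^ 2 + (lam - lam') / 2 * v x ^ 2 - gg x * v x
            = (gg x - (lam - lam') * v x) ^ 2 / (2 * (lam - lam')) := by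
          field_simp
          ring
        have h6 : 0 ≤ (gg x - (lam - lam') * v x) ^ 2 / (2 * (lam - lam')) := by positivity
        linarith
      have hfin : (lam - lam') / 2 * (∫ x, v x ^ 2)
          ≤ 1 / (2 * (lam - lam')) * ∫ x, gg x ^ 2 := by
        rw [e3] at hform
        rw [hen] at e1
        nlinarith
      rw [le_div_iff₀ (by positivity)]
      have h7 := mul_le_mul_of_nonneg_left hfin (by positivity : 0 ≤ 2 * (lam - lam'))
      have h8 : 2 * (lam - lam') * (1 / (2 * (lam - lam')) * ∫ x, gg x ^ 2)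
          = ∫ x, gg x ^ 2 := by
        field_simp
      rw [h8] at h7
      nlinarith

/-- uniform pointwise bound -/
theorem phi_sup (hG : IsRes κ G) (hB : Measurable B) (hC : ∀ x, |B x| ≤ C) {S : ℝ} (hS : ∀ k, ∫ x, phi G B k x ^ 2 ≤ S) :
    ∃ R : ℝ, ∀ k x, phi G B k x ≤ R := by
  obtain ⟨D, hD0, hD⟩ := hG.sup
  refine ⟨D * Real.sqrt (2 * (∫ x, gg x ^ 2) + 2 * C ^ 2 * S), fun k x => ?_⟩
  cases k with
  | zero =>
      simp only [phi]
      positivity
  | succ k =>
      have hsn := src_nice hB hC (phi_nice hG hB hC k)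
      refine (le_abs_self _).trans ((hD _ hsn x).trans ?_)
      refine mul_le_mul_of_nonneg_left (Real.sqrt_le_sqrt ?_) hD0
      have h1 : ∫ x, (gg x + B x * phi G B k x) ^ 2
          ≤ ∫ x, (2 * gg x ^ 2 + 2 * C ^ 2 * phi G B k x ^ 2) := by
        refine integral_mono hsn.sq ((gg_nice.sq.const_mul 2).add
          ((phi_nice hG hB hC k).sq.const_mul _)) (fun x => ?_)
        have h2 : B x ^ 2 ≤ C ^ 2 := by
          rw [← sq_abs]
          exact pow_le_pow_left₀ (abs_nonneg _) (hC x) 2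
        have h3 : B x ^ 2 * phi G B k x ^ 2 ≤ C ^ 2 * phi G B k x ^ 2 :=
          mul_le_mul_of_nonneg_right h2 (sq_nonneg _)
        simp only
        nlinarith [sq_nonneg (gg x - B x * phi G B k x)]
      refine h1.trans ?_
      rw [integral_add (gg_nice.sq.const_mul 2) ((phi_nice hG hB hC k).sq.const_mul _),
        integral_const_mul, integral_const_mul]
      have h4 := mul_le_mul_of_nonneg_left (hS k) (by positivity : 0 ≤ 2 * C ^ 2)
      linarith

end

theorem dot3_cont {f η : E3 → ℝ} (hf : ContDiff ℝ 1 f) (hη : ContDiff ℝ 1 η) :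
    Continuous (fun x => dot3 f η x) := by
  unfold dot3
  refine continuous_finsetSum _ fun k _ => ?_
  exact ((hf.continuous_fderiv one_ne_zero).clm_apply continuous_const).mul
    ((hη.continuous_fderiv one_ne_zero).clm_apply continuous_const)

theorem dot3_supp {f η : E3 → ℝ} (hc : HasCompactSupport η) :
    HasCompactSupport (fun x => dot3 f η x) := by
  refine (hc.fderiv ℝ).mono ?_
  intro x hx
  rw [Function.mem_support] at hx ⊢
  intro h0
  apply hx
  unfold dot3
  simp [h0]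

/-- TWB-JP -/
theorem jp : S_G → S_FORM → S_JP := by
  intro hGG hF Q hQm hQ0 hQb lam lam' hl hfl
  obtain ⟨M, hM⟩ := hQb
  have hM0 : 0 ≤ M := (hQ0 0).trans (hM 0)
  set κ : ℝ := M + |lam'| + 1 with hκ
  have hκ0 : 0 < κ := by positivity
  obtain ⟨G, hG⟩ := hGG κ hκ0
  set B : E3 → ℝ := fun x => κ + lam' - Q x with hBdef
  have hBm : Measurable B := measurable_const.sub hQm
  have hB0 : ∀ x, 0 ≤ B x := by
    intro x
    have h1 := hM x
    have h2 := neg_abs_le lam'
    simp only [hBdef, hκ]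
    linarith
  have hC : ∀ x, |B x| ≤ κ + |lam'| := by
    intro x
    rw [abs_of_nonneg (hB0 x)]
    have h1 := hQ0 x
    have h2 := le_abs_self lam'
    simp only [hBdef]
    linarith
  have hQa : ∀ x, |Q x| ≤ M := fun x => by rw [abs_of_nonneg (hQ0 x)]; exact hM x
  have hS := phi_l2 hF hG hBm hC hB0 hQm hQ0 hM hl hfl (fun x => rfl)
  obtain ⟨R, hR⟩ := phi_sup hG hBm hC hS
  set φ : E3 → ℝ := fun x => ⨆ k, phi G B k x with hφ
  have hbdd : ∀ x, BddAbove (Set.range (fun k => phi G B k x)) := by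
    intro x
    refine ⟨R, ?_⟩
    rintro _ ⟨k, rfl⟩
    exact hR k x
  have hlim : ∀ x, Tendsto (fun k => phi G B k x) atTop (nhds (φ x)) := fun x =>
    tendsto_atTop_ciSup (phi_mono hG hBm hC hB0 x) (hbdd x)
  have hle : ∀ k x, phi G B k x ≤ φ x := fun k x => le_ciSup (hbdd x) k
  have hφ0 : ∀ x, 0 ≤ φ x := fun x => (phi_nonneg hG hBm hC hB0 0 x).trans (hle 0 x)
  have hφR : ∀ x, φ x ≤ R := fun x => ciSup_le (fun k => hR k x)
  have hφm : Measurable φ :=
    measurable_of_tendsto_metrizable (fun k => (phi_nice hG hBm hC k).meas)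
      (tendsto_pi_nhds.2 hlim)
  have hφn : Nice φ := by
    refine ⟨hφm, ⟨R, fun x => ?_⟩, sq_fatou (fun k => phi_nice hG hBm hC k) hφm hS hlim⟩
    rw [abs_of_nonneg (hφ0 x)]
    exact hφR x
  have hsn := src_nice hBm hC hφn
  have hfix : ∀ x, G (fun x => gg x + B x * φ x) x = φ x := by
    intro x
    have h1 := hG.conv (fun n x => gg x + B x * phi G B n x) (fun x => gg x + B x * φ x)
      (fun n => src_nice hBm hC (phi_nice hG hBm hC n)) hsn
      (fun n x => add_nonneg (gg_pos x).le (mul_nonneg (hB0 x) (phi_nonneg hG hBm hC hB0 n x)))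
      (fun n x => add_le_add le_rfl (mul_le_mul_of_nonneg_left (hle n x) (hB0 x)))
      (fun x => tendsto_const_nhds.add (tendsto_const_nhds.mul (hlim x))) x
    have h2 : Tendsto (fun k => phi G B (k + 1) x) atTop (nhds (φ x)) :=
      (hlim x).comp (tendsto_add_atTop_nat 1)
    exact tendsto_nhds_unique h1 h2
  have hfix' : G (fun x => gg x + B x * φ x) = φ := funext hfix
  have hdiff : ContDiff ℝ 1 φ := by
    have h1 := hG.diff _ hsn
    rwa [hfix'] at h1
  have hpos : ∀ x, 0 < φ x := by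
    intro x
    have h1 := hG.pos _ hsn (fun x => add_pos_of_pos_of_nonneg (gg_pos x)
      (mul_nonneg (hB0 x) (hφ0 x))) x
    rwa [hfix'] at h1
  refine ⟨φ, hdiff, hpos, ?_⟩
  intro η hη hηc hη0
  have hw := hG.weak _ hsn η hη hηc
  rw [hfix'] at hw
  have ηc : Continuous η := hη.continuous
  have i1 : Integrable (fun x => φ x * η x) :=
    (hdiff.continuous.mul ηc).integrable_of_hasCompactSupport hηc.mul_left
  have i2 : Integrable (fun x => dot3 φ η x) :=
    (dot3_cont hdiff hη).integrable_of_hasCompactSupport (dot3_supp hηc)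
  have i3 : Integrable (fun x => Q x * (φ x * η x)) := bmul_int i1 hQm hQa
  have i4 : Integrable (fun x => gg x * η x) := by
    have h1 : Integrable η := ηc.integrable_of_hasCompactSupport hηc
    obtain ⟨D, hD⟩ := gg_nice.bdd
    exact bmul_int h1 gg_nice.meas hD
  have e1 : ∫ x, (dot3 φ η x + κ * φ x * η x)
      = (∫ x, dot3 φ η x) + κ * ∫ x, φ x * η x := by
    rw [← integral_const_mul, ← integral_add i2 (i1.const_mul κ)]
    refine integral_congr_ae (ae_of_all _ fun x => ?_)
    simp only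
    ring
  have e2 : ∫ x, (gg x + B x * φ x) * η x
      = (∫ x, gg x * η x) + ((κ + lam') * (∫ x, φ x * η x) - ∫ x, Q x * (φ x * η x)) := by
    have i5 : Integrable (fun x => (κ + lam') * (φ x * η x) - Q x * (φ x * η x)) :=
      (i1.const_mul _).sub i3
    rw [← integral_const_mul, ← integral_sub (i1.const_mul _) i3, ← integral_add i4 i5]
    refine integral_congr_ae (ae_of_all _ fun x => ?_)
    simp only [hBdef]
    ring
  have e3 : ∫ x, (dot3 φ η x + Q x * φ x * η x)
      = (∫ x, dot3 φ η x) + ∫ x, Q x * (φ x * η x) := by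
    rw [← integral_add i2 i3]
    refine integral_congr_ae (ae_of_all _ fun x => ?_)
    simp only
    ring
  have hg0 : 0 ≤ ∫ x, gg x * η x :=
    integral_nonneg fun x => mul_nonneg (gg_pos x).le (hη0 x)
  rw [e1, e2] at hw
  rw [e3]
  linarith

end Pool.Agent.W563.TWB.Jp
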